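import Pool.Agent.W860.FL.Walk
import Pool.Agent.W860.OB.Gap
set_option autoImplicit false

/-! Freiman's theorem with optimal bounds in arbitrary abelian groups. -/

namespace W860.FL

open Finset
open scoped Pointwise

variable {G : Type*} [AddCommGroup G]

theorem exists_diss [DecidableEq G] (B : Finset G) (W : Set G) (h0 : (0 : G) ∈ W)
    (hneg : ∀ x ∈ W, -x ∈ W) :
    ∃ D ⊆ B, (∀ e : G → ℤ, (∀ s, |e s| ≤ 1) → ∑ s ∈ D, e s • s ∈ W → ∀ s ∈ D, e s = 0) ∧
      ∀ b ∈ B, ∃ e : G → ℤ, (∀ s, |e s| ≤ 1) ∧ b - ∑ s ∈ D, e s • s ∈ W := by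
  classical
  let P : Finset G → Prop := fun D =>
    ∀ e : G → ℤ, (∀ s, |e s| ≤ 1) → ∑ s ∈ D, e s • s ∈ W → ∀ s ∈ D, e s = 0
  obtain ⟨D, hD, hmax⟩ := Finset.exists_max_image (B.powerset.filter P) Finset.card
    ⟨∅, by
      rw [Finset.mem_filter]
      refine ⟨by simp, ?_⟩
      intro e _ _ s hs
      simp at hs⟩
  rw [Finset.mem_filter, Finset.mem_powerset] at hD
  refine ⟨D, hD.1, hD.2, ?_⟩
  intro b hb
  by_cases hbD : b ∈ D
  · refine ⟨fun s => if s = b then 1 else 0, ?_, ?_⟩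
    · intro s
      by_cases h : s = b <;> simp [h]
    · have : ∑ s ∈ D, (if s = b then (1 : ℤ) else 0) • s = b := by
        rw [Finset.sum_eq_single b]
        · simp
        · intro s _ hs; rw [if_neg hs, zero_smul]
        · intro h; exact absurd hbD h
      rw [this, sub_self]; exact h0
  · have hnot : ¬ P (insert b D) := by
      intro hP
      have h1 := hmax (insert b D) (by
        rw [Finset.mem_filter, Finset.mem_powerset]
        exact ⟨Finset.insert_subset hb hD.1, hP⟩)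
      rw [Finset.card_insert_of_notMem hbD] at h1
      omega
    simp only [P] at hnot
    push Not at hnot
    obtain ⟨e, he1, heW, s, hs, hes⟩ := hnot
    rw [Finset.sum_insert hbD] at heW
    have heb : e b ≠ 0 := by
      intro h
      rw [h, zero_smul, zero_add] at heW
      have h2 := hD.2 e he1 heW
      rcases Finset.mem_insert.1 hs with h3 | h3
      · rw [h3] at hes; exact hes h
      · exact hes (h2 s h3)
    have h3 := abs_le.1 (he1 b)
    have h4 : e b = 1 ∨ e b = -1 := by omega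
    rcases h4 with h4 | h4
    · refine ⟨fun s => -e s, fun s => by rw [abs_neg]; exact he1 s, ?_⟩
      rw [h4, one_smul] at heW
      have e1 : b - ∑ s ∈ D, (-e s) • s = b + ∑ s ∈ D, e s • s := by
        simp only [neg_smul, Finset.sum_neg_distrib, sub_neg_eq_add]
      rw [e1]; exact heW
    · refine ⟨e, he1, ?_⟩
      rw [h4, neg_smul, one_smul] at heW
      have e1 : b - ∑ s ∈ D, e s • s = -(-b + ∑ s ∈ D, e s • s) := by abel
      rw [e1]; exact hneg _ heW

/-- rank bound -/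
theorem rank_bound [DecidableEq G] (A D T : Finset G) (Q W : Set G)
    (hQW : ∀ x ∈ Q, ∀ y ∈ Q, x - y ∈ W) (hA : A.Nonempty) {K : ℝ} (hK1 : 1 ≤ K)
    (hAD : ((A + D).card : ℝ) ≤ K * A.card) (hcov : ∀ a ∈ A, ∃ t ∈ T, a - t ∈ Q)
    (hdiss : ∀ e : G → ℤ, (∀ s, |e s| ≤ 1) → ∑ s ∈ D, e s • s ∈ W → ∀ s ∈ D, e s = 0)
    (j : ℕ) (hj : 0 < j) (hT : (T.card : ℝ) ≤ (2 * K) ^ j) :
    (D.card : ℝ) ≤ 256 * (j : ℝ) ^ 2 * K := by
  by_contra hcon
  push Not at hcon
  have hj1 : (1 : ℝ) ≤ j := by exact_mod_cast hj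
  have hj2 : (1 : ℝ) ≤ (j : ℝ) ^ 2 := one_le_pow₀ hj1
  have hDpos : (0 : ℝ) < D.card := by
    have : 0 ≤ 256 * (j : ℝ) ^ 2 * K := by positivity
    linarith
  have hDne : D.Nonempty := by
    rw [← Finset.card_pos]; exact_mod_cast hDpos
  obtain ⟨q, hqdef⟩ : ∃ q : ℕ, q = 256 * j ^ 2 := ⟨_, rfl⟩
  have hqr : (q : ℝ) = 256 * (j : ℝ) ^ 2 := by rw [hqdef]; push_cast; ring
  have hqD : (q : ℝ) ≤ D.card := by
    rw [hqr]
    have : 256 * (j : ℝ) ^ 2 * 1 ≤ 256 * (j : ℝ) ^ 2 * K :=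
      mul_le_mul_of_nonneg_left hK1 (by positivity)
    linarith
  have hqDn : q ≤ D.card := by exact_mod_cast hqD
  have h16 : 16 * j ≤ q := by
    rw [hqdef]; nlinarith
  have hApos : (0 : ℝ) < A.card := by exact_mod_cast hA.card_pos
  have hq : q * (A + D).card ≤ D.card * A.card := by
    have h1 : (q : ℝ) * ((A + D).card : ℝ) ≤ D.card * A.card := by
      calc (q : ℝ) * ((A + D).card : ℝ) ≤ q * (K * A.card) :=
            mul_le_mul_of_nonneg_left hAD (Nat.cast_nonneg _)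
        _ = (256 * (j : ℝ) ^ 2 * K) * A.card := by rw [hqr]; ring
        _ ≤ D.card * A.card := mul_le_mul_of_nonneg_right hcon.le hApos.le
    exact_mod_cast h1
  have h := walk A D T Q W hQW hA hDne hcov hdiss q j hq (h16.trans hqDn) h16
  rw [← hqdef, mul_pow, mul_comm] at h
  have hqpos : 0 < q ^ j := by
    apply pow_pos
    have : 0 < j ^ 2 := by positivity
    omega
  have h2 : D.card ^ j ≤ T.card := Nat.le_of_mul_le_mul_left h hqpos
  have h3 : ((D.card : ℝ)) ^ j ≤ (2 * K) ^ j := by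
    refine le_trans ?_ hT
    exact_mod_cast h2
  have h4 : (D.card : ℝ) ≤ 2 * K := by
    by_contra h5
    push Not at h5
    have := pow_lt_pow_left₀ h5 (by linarith) hj.ne'
    linarith
  nlinarith

/-- **Freiman's theorem with optimal bounds.** -/
theorem containment [DecidableEq G] {K : ℝ} {A : Finset G} (hA : A.Nonempty)
    (hK : ((A + A).card : ℝ) ≤ K * A.card) :
    ∃ (n : ℕ) (v : Fin n → G) (L : Fin n → ℕ) (H₀ : AddSubgroup G) (a₀ : G),
      (n : ℝ) ≤ 300000000000 * K ∧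
      ((Finset.univ.filter fun i => 2 ≤ L i).card : ℝ) ≤ 30000 * Real.log (2 * K) ∧
      Finite H₀ ∧
      ((∏ i, (2 * L i + 1) : ℕ) : ℝ) * (Nat.card H₀ : ℝ) ≤
        Real.exp (300000000000 * K) * A.card ∧
      ∀ a ∈ A, ∃ c : Fin n → ℤ, (∀ i, |c i| ≤ L i) ∧
        ∃ h ∈ H₀, a = a₀ + ∑ i, c i • v i + h := by
  classical
  have hApos : (0 : ℝ) < A.card := by exact_mod_cast hA.card_pos
  have hK1 : 1 ≤ K := by
    have h1 : (A.card : ℝ) ≤ (A + A).card := by
      exact_mod_cast Finset.card_le_card_add_right hA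
    nlinarith
  obtain ⟨k, v, L, H₀, T, hk, hH, hvol, hT, hcov⟩ :=
    OB.gap_cover hA hK one_pos le_rfl
  obtain ⟨a₀, ha₀⟩ := hA
  have hA : A.Nonempty := ⟨a₀, ha₀⟩
  let Q : Set G := {x | ∃ c : Fin k → ℤ, (∀ i, |c i| ≤ L i) ∧ ∃ h ∈ H₀, x = ∑ i, c i • v i + h}
  let W : Set G := {x | ∃ c : Fin k → ℤ, (∀ i, |c i| ≤ 2 * L i) ∧
    ∃ h ∈ H₀, x = ∑ i, c i • v i + h}
  have hQW : ∀ x ∈ Q, ∀ y ∈ Q, x - y ∈ W := by
    rintro x ⟨c, hc, h, hh, rfl⟩ y ⟨c', hc', h', hh', rfl⟩
    refine ⟨fun i => c i - c' i, ?_, h - h', H₀.sub_mem hh hh', ?_⟩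
    · intro i
      have h1 := abs_le.1 (hc i)
      have h2 := abs_le.1 (hc' i)
      rw [abs_le]
      constructor <;> linarith
    · simp only [sub_smul, Finset.sum_sub_distrib]
      abel
  have hW0 : (0 : G) ∈ W := by
    refine ⟨0, fun i => by simp, 0, H₀.zero_mem, by simp⟩
  have hWneg : ∀ x ∈ W, -x ∈ W := by
    rintro x ⟨c, hc, h, hh, rfl⟩
    refine ⟨fun i => -c i, fun i => by rw [abs_neg]; exact hc i, -h, H₀.neg_mem hh, ?_⟩
    simp only [neg_smul, Finset.sum_neg_distrib]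
    abel
  obtain ⟨D, hDB, hdiss, hspan⟩ := exists_diss (A.image fun a => a - a₀) W hW0 hWneg
  have hAD : ((A + D).card : ℝ) ≤ K * A.card := by
    refine le_trans ?_ hK
    have h1 : A + D ⊆ (A + A).image fun z => z - a₀ := by
      intro z hz
      obtain ⟨a, ha, d, hd, rfl⟩ := Finset.mem_add.1 hz
      obtain ⟨a', ha', rfl⟩ := Finset.mem_image.1 (hDB hd)
      exact Finset.mem_image.2 ⟨a + a', Finset.add_mem_add ha ha', by abel⟩
    exact_mod_cast (Finset.card_le_card h1).trans Finset.card_image_le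
  have hcov' : ∀ a ∈ A, ∃ t ∈ T, a - t ∈ Q := by
    intro a ha
    obtain ⟨t, ht, c, hc, h, hh, e⟩ := hcov a ha
    refine ⟨t, ht, c, hc, h, hh, ?_⟩
    rw [e]; abel
  obtain ⟨j, hj⟩ : ∃ j : ℕ, j = 30000 := ⟨_, rfl⟩
  have hjr : (j : ℝ) = 30000 := by rw [hj]; norm_num
  have hTj : (T.card : ℝ) ≤ (2 * K) ^ j := by
    rw [← Real.rpow_natCast, hjr]
    rw [div_one] at hT
    exact hT
  have hr := rank_bound A D T Q W hQW hA hK1 hAD hcov' hdiss j (by omega) hTj
  have hr' : (D.card : ℝ) ≤ 230400000000 * K := by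
    refine hr.trans (le_of_eq ?_)
    rw [hjr]; norm_num
  obtain ⟨r, hrdef⟩ : ∃ r : ℕ, r = D.card := ⟨_, rfl⟩
  rw [← hrdef] at hr'
  let ι : Fin r ≃ D := (Fin.castOrderIso hrdef).toEquiv.trans D.equivFin.symm
  obtain ⟨κ, hκ⟩ : ∃ κ : ℝ, κ = Real.log (2 * K) := ⟨_, rfl⟩
  have hK0 : (0 : ℝ) < 2 * K := by linarith
  have hκ0 : 0 ≤ κ := by rw [hκ]; exact Real.log_nonneg (by linarith)
  have hκK : κ ≤ 2 * K := by
    rw [hκ]
    have := Real.log_le_sub_one_of_pos hK0
    linarith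
  have hκ2 : κ ^ 2 ≤ 8 * K := by
    have h1 : Real.log (2 * K) = 2 * Real.log (Real.sqrt (2 * K)) := by
      rw [Real.log_sqrt hK0.le]; ring
    have h2 : Real.log (Real.sqrt (2 * K)) ≤ Real.sqrt (2 * K) := by
      have := Real.log_le_sub_one_of_pos (Real.sqrt_pos.2 hK0)
      linarith
    have h3 : κ ≤ 2 * Real.sqrt (2 * K) := by rw [hκ, h1]; linarith
    calc κ ^ 2 ≤ (2 * Real.sqrt (2 * K)) ^ 2 := pow_le_pow_left₀ hκ0 h3 2
      _ = 4 * (Real.sqrt (2 * K)) ^ 2 := by ring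
      _ = 8 * K := by rw [Real.sq_sqrt hK0.le]; ring
  rw [div_one, ← hκ] at hk
  refine ⟨r + k, Fin.append (fun i => ((ι i : D) : G)) v, Fin.append (fun _ => 1) (fun i => 2 * L i),
    H₀, a₀, ?_, ?_, hH, ?_, ?_⟩
  · push_cast
    linarith
  · rw [← hκ]
    refine le_trans ?_ hk
    have h1 : (Finset.univ.filter fun i => 2 ≤
        (Fin.append (fun _ : Fin r => 1) (fun i => 2 * L i) : Fin (r + k) → ℕ) i) ⊆
        Finset.univ.image (Fin.natAdd r : Fin k → Fin (r + k)) := by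
      intro i hi
      rw [Finset.mem_filter] at hi
      revert hi
      refine Fin.addCases (fun i => ?_) (fun i => ?_) i
      · intro hi
        rw [Fin.append_left] at hi
        omega
      · intro _
        exact Finset.mem_image.2 ⟨i, Finset.mem_univ _, rfl⟩
    have h2 := (Finset.card_le_card h1).trans Finset.card_image_le
    rw [Finset.card_univ, Fintype.card_fin] at h2
    exact_mod_cast h2
  · have h1 : ∏ i, (2 * (Fin.append (fun _ : Fin r => 1) (fun i => 2 * L i) :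
        Fin (r + k) → ℕ) i + 1) ≤ 3 ^ r * (2 ^ k * ∏ i, (2 * L i + 1)) := by
      rw [Fin.prod_univ_add]
      simp only [Fin.append_left, Fin.append_right]
      rw [Finset.prod_const, Finset.card_univ, Fintype.card_fin]
      apply Nat.mul_le_mul (le_of_eq (by norm_num))
      have h2 : (2 : ℕ) ^ k = ∏ _i : Fin k, 2 := by
        rw [Finset.prod_const, Finset.card_univ, Fintype.card_fin]
      rw [h2, ← Finset.prod_mul_distrib]
      apply Finset.prod_le_prod'
      intro i _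
      omega
    have h3 : ((∏ i, (2 * (Fin.append (fun _ : Fin r => 1) (fun i => 2 * L i) :
        Fin (r + k) → ℕ) i + 1) : ℕ) : ℝ) ≤
        3 ^ r * (2 ^ k * ((∏ i, (2 * L i + 1) : ℕ) : ℝ)) := by exact_mod_cast h1
    have hlog3 : Real.log 3 ≤ 1.1 := by
      rw [Real.log_le_iff_le_exp (by norm_num)]
      have h15 := Real.sum_le_exp_of_nonneg (x := 1.1) (by norm_num) 8
      refine le_trans ?_ h15
      norm_num [Finset.sum_range_succ, Nat.factorial]
    have hlog2 := Real.log_two_lt_d9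
    have h4 : (3 : ℝ) ^ r ≤ Real.exp (1.1 * (230400000000 * K)) := by
      have e1 : (3 : ℝ) ^ r = Real.exp (r * Real.log 3) := by
        rw [Real.exp_nat_mul, Real.exp_log (by norm_num)]
      rw [e1]
      apply Real.exp_le_exp.2
      have : 0 ≤ Real.log 3 := Real.log_nonneg (by norm_num)
      calc (r : ℝ) * Real.log 3 ≤ (230400000000 * K) * Real.log 3 :=
            mul_le_mul_of_nonneg_right hr' this
        _ ≤ (230400000000 * K) * 1.1 := mul_le_mul_of_nonneg_left hlog3 (by positivity)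
        _ = _ := by ring
    have h5 : (2 : ℝ) ^ k ≤ Real.exp (30000 * κ) := by
      have e1 : (2 : ℝ) ^ k = Real.exp (k * Real.log 2) := by
        rw [Real.exp_nat_mul, Real.exp_log (by norm_num)]
      rw [e1]
      apply Real.exp_le_exp.2
      have h7 : (0 : ℝ) ≤ k := Nat.cast_nonneg _
      calc (k : ℝ) * Real.log 2 ≤ k * 1 := mul_le_mul_of_nonneg_left (by linarith) h7
        _ ≤ 30000 * κ := by linarith
    have hvol' : ((∏ i, (2 * L i + 1) : ℕ) : ℝ) * (Nat.card H₀ : ℝ) ≤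
        Real.exp (4000000 * κ ^ 2) * A.card := by
      refine hvol.trans (le_of_eq ?_)
      rw [← hκ, one_pow, div_one]
      congr 2
      rw [show (1 + 1 : ℝ) = ((2 : ℕ) : ℝ) by norm_num, Real.rpow_natCast]
    have hH0 : (0 : ℝ) ≤ Nat.card H₀ := Nat.cast_nonneg _
    calc ((∏ i, (2 * (Fin.append (fun _ : Fin r => 1) (fun i => 2 * L i) :
          Fin (r + k) → ℕ) i + 1) : ℕ) : ℝ) * (Nat.card H₀ : ℝ)
        ≤ (3 ^ r * (2 ^ k * ((∏ i, (2 * L i + 1) : ℕ) : ℝ))) * (Nat.card H₀ : ℝ) :=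
          mul_le_mul_of_nonneg_right h3 hH0
      _ = 3 ^ r * (2 ^ k * (((∏ i, (2 * L i + 1) : ℕ) : ℝ) * (Nat.card H₀ : ℝ))) := by ring
      _ ≤ Real.exp (1.1 * (230400000000 * K)) * (Real.exp (30000 * κ) *
            (Real.exp (4000000 * κ ^ 2) * A.card)) := by
          apply mul_le_mul h4 _ (by positivity) (Real.exp_pos _).le
          exact mul_le_mul h5 hvol' (by positivity) (Real.exp_pos _).le
      _ = Real.exp (1.1 * (230400000000 * K) + 30000 * κ + 4000000 * κ ^ 2) * A.card := by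
          rw [Real.exp_add, Real.exp_add]; ring
      _ ≤ Real.exp (300000000000 * K) * A.card := by
          apply mul_le_mul_of_nonneg_right _ hApos.le
          apply Real.exp_le_exp.2
          linarith
  · intro a ha
    obtain ⟨e, he, c, hc, h, hh, hx⟩ := hspan (a - a₀) (Finset.mem_image_of_mem _ ha)
    refine ⟨Fin.append (fun i => e (ι i : G)) c, ?_, h, hh, ?_⟩
    · intro i
      refine Fin.addCases (fun i => ?_) (fun i => ?_) i
      · rw [Fin.append_left, Fin.append_left]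
        exact_mod_cast he _
      · rw [Fin.append_right, Fin.append_right]
        have := hc i
        push_cast
        exact this
    · rw [Fin.sum_univ_add]
      simp only [Fin.append_left, Fin.append_right]
      have h1 : ∑ i : Fin r, e (ι i : G) • ((ι i : D) : G) = ∑ s ∈ D, e s • s := by
        rw [← Finset.sum_coe_sort D (fun s => e s • s)]
        exact Equiv.sum_comp ι (fun s : D => e (s : G) • (s : G))
      rw [h1]
      have h2 : a = a₀ + ((a - a₀ - ∑ s ∈ D, e s • s) + ∑ s ∈ D, e s • s) := by abel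
      rw [h2, hx]
      abel_nf

end W860.FL
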