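import Mathlib
set_option autoImplicit false

/-! Walks `a + s₁ - s₁' + s₂ - s₂' + ...` inside a set with `|A+D| ≤ K|A|`. -/

namespace W860.FL

open Finset
open scoped Pointwise

variable {G : Type*} [AddCommGroup G] [DecidableEq G]

/-- number of edges -/
def ed (D A Z : Finset G) : ℕ := ((A ×ˢ D).filter fun p => p.1 + p.2 ∈ Z).card

theorem ed_erase_left (D A Z : Finset G) {a : G} (ha : a ∈ A) :
    ed D A Z = ed D (A.erase a) Z + (D.filter fun s => a + s ∈ Z).card := by
  unfold ed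
  have h1 : ((A ×ˢ D).filter fun p => p.1 + p.2 ∈ Z) =
      (((A.erase a) ×ˢ D).filter fun p => p.1 + p.2 ∈ Z) ∪
        ((D.filter fun s => a + s ∈ Z).image fun s => (a, s)) := by
    ext ⟨x, s⟩
    simp only [Finset.mem_filter, Finset.mem_product, Finset.mem_union, Finset.mem_erase,
      Finset.mem_image, Prod.mk.injEq]
    constructor
    · rintro ⟨⟨hx, hs⟩, hz⟩
      by_cases hxa : x = a
      · right; exact ⟨s, ⟨hs, by rw [← hxa]; exact hz⟩, hxa.symm, rfl⟩
      · left; exact ⟨⟨⟨hxa, hx⟩, hs⟩, hz⟩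
    · rintro (⟨⟨⟨_, hx⟩, hs⟩, hz⟩ | ⟨s', ⟨hs', hz⟩, rfl, rfl⟩)
      · exact ⟨⟨hx, hs⟩, hz⟩
      · exact ⟨⟨ha, hs'⟩, hz⟩
  rw [h1, Finset.card_union_of_disjoint, Finset.card_image_of_injective]
  · intro s s' h; exact (Prod.mk.inj h).2
  · rw [Finset.disjoint_left]
    rintro ⟨x, s⟩ hx hy
    simp only [Finset.mem_filter, Finset.mem_product, Finset.mem_erase, Finset.mem_image,
      Prod.mk.injEq] at hx hy
    obtain ⟨s', _, h, _⟩ := hy
    exact hx.1.1.1 h.symm

theorem ed_erase_right (D A Z : Finset G) {z : G} (hz : z ∈ Z) :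
    ed D A Z = ed D A (Z.erase z) + (D.filter fun s => z - s ∈ A).card := by
  unfold ed
  have h1 : ((A ×ˢ D).filter fun p => p.1 + p.2 ∈ Z) =
      ((A ×ˢ D).filter fun p => p.1 + p.2 ∈ Z.erase z) ∪
        ((D.filter fun s => z - s ∈ A).image fun s => (z - s, s)) := by
    ext ⟨x, s⟩
    simp only [Finset.mem_filter, Finset.mem_product, Finset.mem_union, Finset.mem_erase,
      Finset.mem_image, Prod.mk.injEq]
    constructor
    · rintro ⟨⟨hx, hs⟩, hz'⟩
      by_cases hxz : x + s = z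
      · right
        have e : z - s = x := by rw [← hxz]; abel
        exact ⟨s, ⟨hs, by rw [e]; exact hx⟩, e, rfl⟩
      · left; exact ⟨⟨hx, hs⟩, hxz, hz'⟩
    · rintro (⟨⟨hx, hs⟩, _, hz'⟩ | ⟨s', ⟨hs', hx⟩, rfl, rfl⟩)
      · exact ⟨⟨hx, hs⟩, hz'⟩
      · exact ⟨⟨hx, hs'⟩, by rw [sub_add_cancel]; exact hz⟩
  rw [h1, Finset.card_union_of_disjoint, Finset.card_image_of_injective]
  · intro s s' h; exact (Prod.mk.inj h).2
  · rw [Finset.disjoint_left]
    rintro ⟨x, s⟩ hx hy
    simp only [Finset.mem_filter, Finset.mem_product, Finset.mem_erase, Finset.mem_image,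
      Prod.mk.injEq] at hx hy
    obtain ⟨s', _, h, h'⟩ := hy
    apply hx.2.1
    rw [← h, ← h']; abel

/-- pruning to a subgraph of large minimum degree -/
theorem prune (A D : Finset G) (q : ℕ) (hA : A.Nonempty) (hD : D.Nonempty)
    (hq : q * (A + D).card ≤ D.card * A.card) :
    ∃ A' Z' : Finset G, A' ⊆ A ∧ A'.Nonempty ∧
      (∀ a ∈ A', D.card ≤ 4 * (D.filter fun s => a + s ∈ Z').card) ∧
      (∀ z ∈ Z', q ≤ 4 * (D.filter fun s => z - s ∈ A').card) := by
  classical
  let Φ : Finset G × Finset G → ℤ := fun p =>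
    4 * (ed D p.1 p.2 : ℤ) - D.card * p.1.card - q * p.2.card
  obtain ⟨⟨A', Z'⟩, hmem, hmax⟩ := Finset.exists_max_image (A.powerset ×ˢ (A + D).powerset) Φ
    ⟨(A, A + D), by simp⟩
  rw [Finset.mem_product, Finset.mem_powerset, Finset.mem_powerset] at hmem
  simp only at hmem
  have hApos : 0 < A.card := hA.card_pos
  have hDpos : 0 < D.card := hD.card_pos
  have h0 : 0 < Φ (A', Z') := by
    have h1 := hmax (A, A + D) (by simp)
    have h2 : ed D A (A + D) = A.card * D.card := by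
      unfold ed
      rw [Finset.filter_true_of_mem, Finset.card_product]
      rintro ⟨x, s⟩ hp
      rw [Finset.mem_product] at hp
      exact Finset.add_mem_add hp.1 hp.2
    refine lt_of_lt_of_le ?_ h1
    simp only [Φ, h2]
    have h3 : (q : ℤ) * (A + D).card ≤ D.card * A.card := by exact_mod_cast hq
    have h4 : (0 : ℤ) < D.card * A.card := by positivity
    push_cast
    nlinarith
  refine ⟨A', Z', hmem.1, ?_, ?_, ?_⟩
  · rw [Finset.nonempty_iff_ne_empty]
    rintro rfl
    have : ed D (∅ : Finset G) Z' = 0 := by simp [ed]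
    simp only [Φ, this, Finset.card_empty] at h0
    have h5 : (0 : ℤ) ≤ q * Z'.card := by positivity
    push_cast at h0
    linarith
  · intro a ha
    have h1 := hmax (A'.erase a, Z') (by
      rw [Finset.mem_product, Finset.mem_powerset, Finset.mem_powerset]
      exact ⟨(Finset.erase_subset _ _).trans hmem.1, hmem.2⟩)
    have h2 := ed_erase_left D A' Z' ha
    have h3 : (A'.erase a).card + 1 = A'.card := Finset.card_erase_add_one ha
    simp only [Φ, h2] at h1
    have h4 : ((A'.card : ℕ) : ℤ) = (A'.erase a).card + 1 := by exact_mod_cast h3.symm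
    rw [h4] at h1
    push_cast at h1
    have h5 : (D.card : ℤ) ≤ 4 * (D.filter fun s => a + s ∈ Z').card := by nlinarith
    exact_mod_cast h5
  · intro z hz
    have h1 := hmax (A', Z'.erase z) (by
      rw [Finset.mem_product, Finset.mem_powerset, Finset.mem_powerset]
      exact ⟨hmem.1, (Finset.erase_subset _ _).trans hmem.2⟩)
    have h2 := ed_erase_right D A' Z' hz
    have h3 : (Z'.erase z).card + 1 = Z'.card := Finset.card_erase_add_one hz
    simp only [Φ, h2] at h1
    have h4 : ((Z'.card : ℕ) : ℤ) = (Z'.erase z).card + 1 := by exact_mod_cast h3.symm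
    rw [h4] at h1
    push_cast at h1
    have h5 : (q : ℤ) ≤ 4 * (D.filter fun s => z - s ∈ A').card := by nlinarith
    exact_mod_cast h5

/-- pairs `(X, Y)` of disjoint `i`-subsets of `D` with `a + ΣX - ΣY ∈ A'` -/
def NN (D A' : Finset G) (a : G) (i : ℕ) : Finset (Finset G × Finset G) :=
  (D.powersetCard i ×ˢ D.powersetCard i).filter fun p =>
    Disjoint p.1 p.2 ∧ a + ∑ s ∈ p.1, s - ∑ s ∈ p.2, s ∈ A'

theorem NN_step (D A' Z' : Finset G) (a : G) {α β : ℕ}
    (hα : ∀ b ∈ A', α ≤ (D.filter fun s => b + s ∈ Z').card)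
    (hβ : ∀ z ∈ Z', β ≤ (D.filter fun s => z - s ∈ A').card) (i : ℕ) :
    (NN D A' a i).card * ((α - 2 * i) * (β - (2 * i + 1))) ≤
      (NN D A' a (i + 1)).card * (i + 1) ^ 2 := by
  classical
  apply Finset.card_mul_le_card_mul
    (fun (p p' : Finset G × Finset G) => p.1 ⊆ p'.1 ∧ p.2 ⊆ p'.2)
  · rintro ⟨X, Y⟩ hp
    simp only [NN, Finset.mem_filter, Finset.mem_product, Finset.mem_powersetCard] at hp
    obtain ⟨⟨⟨hXD, hXc⟩, hYD, hYc⟩, hdis, hb⟩ := hp
    set b := a + ∑ s ∈ X, s - ∑ s ∈ Y, s with hbdef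
    let S1 : Finset G := (D.filter fun s => b + s ∈ Z') \ (X ∪ Y)
    let S2 : G → Finset G := fun s => (D.filter fun s' => b + s - s' ∈ A') \ (insert s (X ∪ Y))
    have hXY : (X ∪ Y).card ≤ 2 * i := by
      refine (Finset.card_union_le _ _).trans ?_
      omega
    have hS1 : α - 2 * i ≤ S1.card := by
      have h1 := Finset.le_card_sdiff (X ∪ Y) (D.filter fun s => b + s ∈ Z')
      have h2 := hα b hb
      simp only [S1]
      omega
    have hS2 : ∀ s ∈ S1, β - (2 * i + 1) ≤ (S2 s).card := by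
      intro s hs
      simp only [S1, Finset.mem_sdiff, Finset.mem_filter] at hs
      have h1 := Finset.le_card_sdiff (insert s (X ∪ Y)) (D.filter fun s' => b + s - s' ∈ A')
      have h2 := hβ (b + s) hs.1.2
      have h3 := Finset.card_insert_le s (X ∪ Y)
      simp only [S2]
      omega
    have hcard : (α - 2 * i) * (β - (2 * i + 1)) ≤ (S1.sigma S2).card := by
      rw [Finset.card_sigma]
      calc (α - 2 * i) * (β - (2 * i + 1)) ≤ S1.card * (β - (2 * i + 1)) :=
            Nat.mul_le_mul_right _ hS1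
        _ = ∑ _s ∈ S1, (β - (2 * i + 1)) := by rw [Finset.sum_const, smul_eq_mul]
        _ ≤ _ := Finset.sum_le_sum hS2
    refine hcard.trans ?_
    apply Finset.card_le_card_of_injOn (fun t => (insert t.1 X, insert t.2 Y))
    · rintro ⟨s, s'⟩ ht
      have ht' := Finset.mem_sigma.1 ht
      simp only [S1, S2, Finset.mem_sdiff, Finset.mem_filter, Finset.mem_insert,
        Finset.mem_union, not_or] at ht'
      obtain ⟨⟨⟨hsD, hsZ⟩, hsX, hsY⟩, ⟨hsD', hsA⟩, hss, hsX', hsY'⟩ := ht'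
      simp only [Finset.bipartiteAbove, Finset.coe_filter, Set.mem_ofPred_eq, NN,
        Finset.mem_filter, Finset.mem_product, Finset.mem_powersetCard]
      refine ⟨⟨⟨⟨?_, ?_⟩, ?_, ?_⟩, ?_, ?_⟩, Finset.subset_insert _ _, Finset.subset_insert _ _⟩
      · exact Finset.insert_subset hsD hXD
      · rw [Finset.card_insert_of_notMem hsX, hXc]
      · exact Finset.insert_subset hsD' hYD
      · rw [Finset.card_insert_of_notMem hsY', hYc]
      · rw [Finset.disjoint_insert_left, Finset.disjoint_insert_right]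
        refine ⟨?_, hsX', hdis⟩
        rw [Finset.mem_insert, not_or]
        exact ⟨fun h => hss h.symm, hsY⟩
      · rw [Finset.sum_insert hsX, Finset.sum_insert hsY']
        have e : a + (s + ∑ x ∈ X, x) - (s' + ∑ x ∈ Y, x) = b + s - s' := by
          rw [hbdef]; abel
        rw [e]; exact hsA
    · rintro ⟨s, s'⟩ ht ⟨u, u'⟩ hu h
      have ht' := Finset.mem_sigma.1 (Finset.mem_coe.1 ht)
      have hu' := Finset.mem_sigma.1 (Finset.mem_coe.1 hu)
      simp only [S1, S2, Finset.mem_sdiff, Finset.mem_filter, Finset.mem_insert,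
        Finset.mem_union, not_or] at ht' hu'
      simp only [Prod.mk.injEq] at h
      have h1 : s = u := by
        have : s ∈ insert u X := h.1 ▸ Finset.mem_insert_self s X
        rcases Finset.mem_insert.1 this with h' | h'
        · exact h'
        · exact absurd h' ht'.1.2.1
      have h2 : s' = u' := by
        have : s' ∈ insert u' Y := h.2 ▸ Finset.mem_insert_self s' Y
        rcases Finset.mem_insert.1 this with h' | h'
        · exact h'
        · exact absurd h' ht'.2.2.2.2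
      rw [h1, h2]
  · rintro ⟨X', Y'⟩ hp
    simp only [NN, Finset.mem_filter, Finset.mem_product, Finset.mem_powersetCard] at hp
    obtain ⟨⟨⟨hXD, hXc⟩, hYD, hYc⟩, hdis, hb⟩ := hp
    have hsub : (NN D A' a i).bipartiteBelow
        (fun (p p' : Finset G × Finset G) => p.1 ⊆ p'.1 ∧ p.2 ⊆ p'.2) (X', Y') ⊆
        X'.powersetCard i ×ˢ Y'.powersetCard i := by
      rintro ⟨X, Y⟩ hXY
      simp only [Finset.bipartiteBelow, NN, Finset.mem_filter, Finset.mem_product,
        Finset.mem_powersetCard] at hXY ⊢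
      exact ⟨⟨hXY.2.1, hXY.1.1.1.2⟩, hXY.2.2, hXY.1.1.2.2⟩
    refine (Finset.card_le_card hsub).trans ?_
    rw [Finset.card_product, Finset.card_powersetCard, Finset.card_powersetCard, hXc, hYc,
      Nat.choose_succ_self_right, sq]

theorem NN_count (D A' Z' : Finset G) {a : G} (ha : a ∈ A') {α β : ℕ}
    (hα : ∀ b ∈ A', α ≤ (D.filter fun s => b + s ∈ Z').card)
    (hβ : ∀ z ∈ Z', β ≤ (D.filter fun s => z - s ∈ A').card) (j : ℕ) :
    ∀ i ≤ j, ((α - 2 * j) * (β - 2 * j)) ^ i ≤ (NN D A' a i).card * (j ^ 2) ^ i := by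
  intro i
  induction i with
  | zero =>
    intro _
    have : (∅, ∅) ∈ NN D A' a 0 := by
      simp [NN, ha]
    have h1 : 0 < (NN D A' a 0).card := Finset.card_pos.2 ⟨_, this⟩
    rw [pow_zero, pow_zero, mul_one]
    exact h1
  | succ i ih =>
    intro hi
    have h1 := ih (by omega)
    have h2 := NN_step D A' Z' a hα hβ i
    have h3 : (α - 2 * j) * (β - 2 * j) ≤ (α - 2 * i) * (β - (2 * i + 1)) :=
      Nat.mul_le_mul (by omega) (by omega)
    have h4 : (i + 1) ^ 2 ≤ j ^ 2 := Nat.pow_le_pow_left hi 2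
    calc ((α - 2 * j) * (β - 2 * j)) ^ (i + 1)
        = ((α - 2 * j) * (β - 2 * j)) ^ i * ((α - 2 * j) * (β - 2 * j)) := pow_succ _ _
      _ ≤ ((NN D A' a i).card * (j ^ 2) ^ i) * ((α - 2 * i) * (β - (2 * i + 1))) :=
          Nat.mul_le_mul h1 h3
      _ = ((NN D A' a i).card * ((α - 2 * i) * (β - (2 * i + 1)))) * (j ^ 2) ^ i := by ring
      _ ≤ ((NN D A' a (i + 1)).card * (i + 1) ^ 2) * (j ^ 2) ^ i := Nat.mul_le_mul_right _ h2
      _ ≤ ((NN D A' a (i + 1)).card * j ^ 2) * (j ^ 2) ^ i :=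
          Nat.mul_le_mul_right _ (Nat.mul_le_mul_left _ h4)
      _ = _ := by rw [pow_succ]; ring

omit [AddCommGroup G] in
/-- a good colouring -/
theorem colour (D : Finset G) (j : ℕ) (N : Finset (Finset G × Finset G))
    (hN : ∀ p ∈ N, p.1 ⊆ D ∧ p.2 ⊆ D ∧ p.1.card = j ∧ p.2.card = j ∧ Disjoint p.1 p.2) :
    ∃ D₁ ⊆ D, N.card ≤ 4 ^ j * (N.filter fun p => p.1 ⊆ D₁ ∧ Disjoint p.2 D₁).card := by
  classical
  by_contra hcon
  push Not at hcon
  have hone : ∀ p ∈ N, 2 ^ D.card ≤ 4 ^ j *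
      (D.powerset.filter fun D₁ => p.1 ⊆ D₁ ∧ Disjoint p.2 D₁).card := by
    intro p hp
    obtain ⟨h1, h2, h3, h4, h5⟩ := hN p hp
    have hcard : (D \ (p.1 ∪ p.2)).card + 2 * j = D.card := by
      have h6 : (p.1 ∪ p.2).card = 2 * j := by
        rw [Finset.card_union_of_disjoint h5, h3, h4]; ring
      rw [← h6]
      exact Finset.card_sdiff_add_card_eq_card (Finset.union_subset h1 h2)
    have hinj : ((D \ (p.1 ∪ p.2)).powerset).card ≤
        (D.powerset.filter fun D₁ => p.1 ⊆ D₁ ∧ Disjoint p.2 D₁).card := by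
      apply Finset.card_le_card_of_injOn (fun E => p.1 ∪ E)
      · intro E hE
        have hE' : E ⊆ D \ (p.1 ∪ p.2) := Finset.mem_powerset.1 (Finset.mem_coe.1 hE)
        simp only [Finset.coe_filter, Set.mem_ofPred_eq, Finset.mem_powerset]
        refine ⟨Finset.union_subset h1 (hE'.trans Finset.sdiff_subset),
          Finset.subset_union_left, ?_⟩
        rw [Finset.disjoint_union_right]
        refine ⟨h5.symm, ?_⟩
        rw [Finset.disjoint_left]
        intro x hx hxE
        have := (Finset.mem_sdiff.1 (hE' hxE)).2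
        exact this (Finset.mem_union_right _ hx)
      · intro E hE E' hE' h
        have h6 : E ⊆ D \ (p.1 ∪ p.2) := Finset.mem_powerset.1 (Finset.mem_coe.1 hE)
        have h7 : E' ⊆ D \ (p.1 ∪ p.2) := Finset.mem_powerset.1 (Finset.mem_coe.1 hE')
        have h8 : Disjoint p.1 E := by
          rw [Finset.disjoint_left]
          intro x hx hxE
          exact (Finset.mem_sdiff.1 (h6 hxE)).2 (Finset.mem_union_left _ hx)
        have h9 : Disjoint p.1 E' := by
          rw [Finset.disjoint_left]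
          intro x hx hxE
          exact (Finset.mem_sdiff.1 (h7 hxE)).2 (Finset.mem_union_left _ hx)
        have h10 : (p.1 ∪ E) \ p.1 = (p.1 ∪ E') \ p.1 := by
          have : p.1 ∪ E = p.1 ∪ E' := h
          rw [this]
        rwa [Finset.union_sdiff_cancel_left h8, Finset.union_sdiff_cancel_left h9] at h10
    rw [Finset.card_powerset] at hinj
    calc 2 ^ D.card = 4 ^ j * 2 ^ (D \ (p.1 ∪ p.2)).card := by
          rw [← hcard, pow_add, pow_mul]; ring
      _ ≤ _ := Nat.mul_le_mul_left _ hinj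
  have hsum : ∑ D₁ ∈ D.powerset, (N.filter fun p => p.1 ⊆ D₁ ∧ Disjoint p.2 D₁).card =
      ∑ p ∈ N, (D.powerset.filter fun D₁ => p.1 ⊆ D₁ ∧ Disjoint p.2 D₁).card := by
    simp only [Finset.card_filter]
    rw [Finset.sum_comm]
  have h1 : N.card * 2 ^ D.card ≤ 4 ^ j *
      ∑ D₁ ∈ D.powerset, (N.filter fun p => p.1 ⊆ D₁ ∧ Disjoint p.2 D₁).card := by
    rw [hsum, Finset.mul_sum]
    calc N.card * 2 ^ D.card = ∑ _p ∈ N, 2 ^ D.card := by rw [Finset.sum_const, smul_eq_mul]
      _ ≤ _ := Finset.sum_le_sum hone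
  have h2 : 4 ^ j * ∑ D₁ ∈ D.powerset, (N.filter fun p => p.1 ⊆ D₁ ∧ Disjoint p.2 D₁).card <
      N.card * 2 ^ D.card := by
    rw [Finset.mul_sum]
    calc ∑ D₁ ∈ D.powerset, 4 ^ j * (N.filter fun p => p.1 ⊆ D₁ ∧ Disjoint p.2 D₁).card
        < ∑ _D₁ ∈ D.powerset, N.card :=
          Finset.sum_lt_sum_of_nonempty ⟨D, by simp⟩
            (fun D₁ hD₁ => hcon D₁ (Finset.mem_powerset.1 hD₁))
      _ = N.card * 2 ^ D.card := by
          rw [Finset.sum_const, Finset.card_powerset, smul_eq_mul, mul_comm]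
  omega

/-- **Walk lemma.** -/
theorem walk (A D T : Finset G) (Q W : Set G) (hQW : ∀ x ∈ Q, ∀ y ∈ Q, x - y ∈ W)
    (hA : A.Nonempty) (hD : D.Nonempty) (hcov : ∀ a ∈ A, ∃ t ∈ T, a - t ∈ Q)
    (hdiss : ∀ e : G → ℤ, (∀ s, |e s| ≤ 1) → ∑ s ∈ D, e s • s ∈ W → ∀ s ∈ D, e s = 0)
    (q j : ℕ) (hq : q * (A + D).card ≤ D.card * A.card) (hj : 16 * j ≤ D.card)
    (hqj : 16 * j ≤ q) :
    (D.card * q) ^ j ≤ (256 * j ^ 2) ^ j * T.card := by
  classical
  obtain ⟨A', Z', hA'A, ⟨a, ha⟩, h1, h2⟩ := prune A D q hA hD hq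
  set α := (D.card + 3) / 4 with hα
  set β := (q + 3) / 4 with hβ
  have hα' : ∀ b ∈ A', α ≤ (D.filter fun s => b + s ∈ Z').card := by
    intro b hb
    have := h1 b hb
    omega
  have hβ' : ∀ z ∈ Z', β ≤ (D.filter fun s => z - s ∈ A').card := by
    intro z hz
    have := h2 z hz
    omega
  have h3 := NN_count D A' Z' ha hα' hβ' j j le_rfl
  obtain ⟨D₁, hD₁, h4⟩ := colour D j (NN D A' a j) (by
    rintro ⟨X, Y⟩ hp
    simp only [NN, Finset.mem_filter, Finset.mem_product, Finset.mem_powersetCard] at hp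
    exact ⟨hp.1.1.1, hp.1.2.1, hp.1.1.2, hp.1.2.2, hp.2.1⟩)
  -- the map to `T`
  have hch : ∀ b : G, ∃ t : G, b ∈ A → t ∈ T ∧ b - t ∈ Q := by
    intro b
    by_cases hb : b ∈ A
    · obtain ⟨t, ht, h⟩ := hcov b hb
      exact ⟨t, fun _ => ⟨ht, h⟩⟩
    · exact ⟨0, fun h => absurd h hb⟩
  choose τ hτ using hch
  have h5 : ((NN D A' a j).filter fun p => p.1 ⊆ D₁ ∧ Disjoint p.2 D₁).card ≤ T.card := by
    apply Finset.card_le_card_of_injOn
      (fun p => τ (a + ∑ s ∈ p.1, s - ∑ s ∈ p.2, s))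
    · rintro ⟨X, Y⟩ hp
      simp only [Finset.coe_filter, Set.mem_ofPred_eq, NN, Finset.mem_filter] at hp
      exact (hτ _ (hA'A hp.1.2.2)).1
    · rintro ⟨X, Y⟩ hp ⟨X', Y'⟩ hp' heq
      simp only [Finset.coe_filter, Set.mem_ofPred_eq, NN, Finset.mem_filter,
        Finset.mem_product, Finset.mem_powersetCard] at hp hp'
      obtain ⟨⟨⟨⟨hXD, -⟩, hYD, -⟩, -, hb⟩, hX1, hY1⟩ := hp
      obtain ⟨⟨⟨⟨hXD', -⟩, hYD', -⟩, -, hb'⟩, hX1', hY1'⟩ := hp'
      simp only at heq
      have hw := hQW _ (hτ _ (hA'A hb)).2 _ (hτ _ (hA'A hb')).2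
      rw [heq] at hw
      have hw2 : (a + ∑ s ∈ X, s - ∑ s ∈ Y, s) - (a + ∑ s ∈ X', s - ∑ s ∈ Y', s) ∈ W := by
        have e : (a + ∑ s ∈ X, s - ∑ s ∈ Y, s) - (a + ∑ s ∈ X', s - ∑ s ∈ Y', s) =
          a + ∑ s ∈ X, s - ∑ s ∈ Y, s - τ (a + ∑ s ∈ X', s - ∑ s ∈ Y', s) -
          (a + ∑ s ∈ X', s - ∑ s ∈ Y', s - τ (a + ∑ s ∈ X', s - ∑ s ∈ Y', s)) := by abel
        rw [e]; exact hw
      let e : G → ℤ := fun s => ((if s ∈ X then 1 else 0) - (if s ∈ Y then 1 else 0)) -
        ((if s ∈ X' then 1 else 0) - (if s ∈ Y' then 1 else 0))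
      have hsumX : ∀ B : Finset G, B ⊆ D → ∑ s ∈ D, (if s ∈ B then (1 : ℤ) else 0) • s =
          ∑ s ∈ B, s := by
        intro B hB
        rw [← Finset.sum_filter_add_sum_filter_not D (fun s => s ∈ B)]
        have e1 : ∑ s ∈ D.filter (fun s => s ∈ B), (if s ∈ B then (1 : ℤ) else 0) • s =
            ∑ s ∈ B, s := by
          have e2 : D.filter (fun s => s ∈ B) = B := by
            ext s
            rw [Finset.mem_filter]
            exact ⟨fun h => h.2, fun h => ⟨hB h, h⟩⟩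
          rw [e2]
          apply Finset.sum_congr rfl
          intro s hs
          rw [if_pos hs, one_smul]
        have e3 : ∑ s ∈ D.filter (fun s => s ∉ B), (if s ∈ B then (1 : ℤ) else 0) • s = 0 := by
          apply Finset.sum_eq_zero
          intro s hs
          rw [if_neg (Finset.mem_filter.1 hs).2, zero_smul]
        rw [e1, e3, add_zero]
      have he1 : ∀ s, |e s| ≤ 1 := by
        intro s
        by_cases hs : s ∈ D₁
        · have y1 : s ∉ Y := fun h => Finset.disjoint_left.1 hY1 h hs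
          have y2 : s ∉ Y' := fun h => Finset.disjoint_left.1 hY1' h hs
          simp only [e, if_neg y1, if_neg y2]
          split_ifs <;> simp
        · have x1 : s ∉ X := fun h => hs (hX1 h)
          have x2 : s ∉ X' := fun h => hs (hX1' h)
          simp only [e, if_neg x1, if_neg x2]
          split_ifs <;> simp
      have he2 : ∑ s ∈ D, e s • s ∈ W := by
        have e4 : ∑ s ∈ D, e s • s =
            (a + ∑ s ∈ X, s - ∑ s ∈ Y, s) - (a + ∑ s ∈ X', s - ∑ s ∈ Y', s) := by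
          simp only [e, sub_smul, Finset.sum_sub_distrib]
          rw [hsumX X hXD, hsumX Y hYD, hsumX X' hXD', hsumX Y' hYD']
          abel
        rw [e4]; exact hw2
      have he3 := hdiss e he1 he2
      have hXX : ∀ s ∈ D, (s ∈ X ↔ s ∈ X') ∧ (s ∈ Y ↔ s ∈ Y') := by
        intro s hs
        have h0 := he3 s hs
        by_cases hs1 : s ∈ D₁
        · have y1 : s ∉ Y := fun h => Finset.disjoint_left.1 hY1 h hs1
          have y2 : s ∉ Y' := fun h => Finset.disjoint_left.1 hY1' h hs1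
          simp only [e, if_neg y1, if_neg y2] at h0
          refine ⟨?_, by simp [y1, y2]⟩
          by_cases hx : s ∈ X <;> by_cases hx' : s ∈ X' <;> simp [hx, hx'] at h0 ⊢
        · have x1 : s ∉ X := fun h => hs1 (hX1 h)
          have x2 : s ∉ X' := fun h => hs1 (hX1' h)
          simp only [e, if_neg x1, if_neg x2] at h0
          refine ⟨by simp [x1, x2], ?_⟩
          by_cases hy : s ∈ Y <;> by_cases hy' : s ∈ Y' <;> simp [hy, hy'] at h0 ⊢
      have r1 : X = X' := by
        ext s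
        constructor
        · intro h; exact (hXX s (hXD h)).1.1 h
        · intro h; exact (hXX s (hXD' h)).1.2 h
      have r2 : Y = Y' := by
        ext s
        constructor
        · intro h; exact (hXX s (hYD h)).2.1 h
        · intro h; exact (hXX s (hYD' h)).2.2 h
      rw [r1, r2]
  have h6 : D.card ≤ 8 * (α - 2 * j) := by omega
  have h7 : q ≤ 8 * (β - 2 * j) := by omega
  calc (D.card * q) ^ j ≤ (64 * ((α - 2 * j) * (β - 2 * j))) ^ j := by
        apply Nat.pow_le_pow_left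
        calc D.card * q ≤ (8 * (α - 2 * j)) * (8 * (β - 2 * j)) := Nat.mul_le_mul h6 h7
          _ = _ := by ring
    _ = 64 ^ j * ((α - 2 * j) * (β - 2 * j)) ^ j := mul_pow _ _ _
    _ ≤ 64 ^ j * ((NN D A' a j).card * (j ^ 2) ^ j) := Nat.mul_le_mul_left _ h3
    _ ≤ 64 ^ j * ((4 ^ j * T.card) * (j ^ 2) ^ j) :=
        Nat.mul_le_mul_left _ (Nat.mul_le_mul_right _ (h4.trans (Nat.mul_le_mul_left _ h5)))
    _ = (256 * j ^ 2) ^ j * T.card := by
        rw [mul_pow 256]
        have : (256 : ℕ) ^ j = 64 ^ j * 4 ^ j := by rw [← mul_pow]; norm_num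
        rw [this]; ring

end W860.FL
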